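import Pool.Agent.Q211.BR.Walk

/-!
# First moment bound for the power sums of the empirical measure
-/

set_option autoImplicit false

open MeasureTheory ProbabilityTheory Filter Topology
open scoped ENNReal

namespace Pool.Agent.Q211.BR

/-- The binary labels of length `n`. -/
def bin (n : ℕ) : Finset (List ℕ) := gen (fun _ => 2) n

theorem bin_length (n : ℕ) : ∀ v ∈ bin n, v.length = n := by
  induction n with
  | zero =>
    intro v hv
    simp only [bin, gen, Finset.mem_singleton] at hv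
    simp [hv]
  | succ n ih =>
    intro v hv
    simp only [bin, gen, Finset.mem_biUnion, Finset.mem_image, Finset.mem_range] at hv
    obtain ⟨w, hw, i, _, rfl⟩ := hv
    rw [List.length_cons, ih w hw]

theorem bin_card (n : ℕ) : (bin n).card = 2 ^ n := by
  induction n with
  | zero => simp [bin, gen]
  | succ n ih =>
    have h : bin (n + 1) = (bin n).biUnion fun v => (Finset.range 2).image fun i => i :: v := rfl
    rw [h, Finset.card_biUnion]
    · have h2 : ∀ v : List ℕ, ((Finset.range 2).image fun i => i :: v).card = 2 := by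
        intro v
        rw [Finset.card_image_of_injective]
        · simp
        · intro i j hij
          exact (List.cons.inj hij).1
      simp only [h2]
      rw [Finset.sum_const, ih, pow_succ, smul_eq_mul]
    · intro v _ w _ hvw
      rw [Function.onFun, Finset.disjoint_left]
      intro x hx hx'
      simp only [Finset.mem_image, Finset.mem_range] at hx hx'
      obtain ⟨i, _, rfl⟩ := hx
      obtain ⟨j, _, hj⟩ := hx'
      exact hvw (List.cons.inj hj).2.symm

section

variable {G : Type*} [Group G] [mG : MeasurableSpace G] [DiscreteMeasurableSpace G] [Countable G]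
  {μ : PMF G} {Ω : Type*} [mΩ : MeasurableSpace Ω] {P : Measure Ω}
  {N : List ℕ → Ω → ℕ} {ζ : List ℕ → Ω → G}

theorem IsBRW.ae_two (h : IsBRW μ (PMF.pure 2) P N ζ) : ∀ᵐ ω ∂P, ∀ v, N v ω = 2 := by
  rw [ae_all_iff]
  intro v
  have h1 : ∀ᵐ k ∂(P.map (N v)), k = 2 := by
    rw [h.lawN, ae_iff, PMF.toMeasure_apply_eq_zero_iff _ (MeasurableSet.of_discrete)]
    rw [PMF.support_pure]
    simp
  exact ae_of_ae_map (h.measN v).aemeasurable h1

open Classical in
/-- The empirical mass in the binary case. -/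
noncomputable def mass (ζ : List ℕ → G) (n : ℕ) (x : G) : ℝ≥0∞ :=
  ∑ v ∈ bin n, (if pos ζ v = x then 1 else 0) / 2 ^ n

theorem emp_eq_mass {Nω : List ℕ → ℕ} (hN : ∀ v, Nω v = 2) (z : List ℕ → G) (n : ℕ) (x : G) :
    emp Nω z n x = mass z n x := by
  classical
  have h1 : Nω = fun _ => 2 := funext hN
  subst h1
  unfold emp mass
  have h2 : gen (fun _ => 2) n = bin n := rfl
  rw [h2, bin_card, Finset.card_filter]
  push_cast
  simp only [div_eq_mul_inv]
  rw [Finset.sum_mul]

theorem IsBRW.measurable_mass (h : IsBRW μ (PMF.pure 2) P N ζ) (n : ℕ) (x : G) :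
    Measurable fun ω => mass (fun i => ζ i ω) n x := by
  classical
  unfold mass
  refine Finset.measurable_sum _ fun v _ => ?_
  refine Measurable.div ?_ measurable_const
  exact Measurable.ite (h.measurable_pos v (MeasurableSet.singleton x)) measurable_const
    measurable_const

theorem IsBRW.lintegral_mass (h : IsBRW μ (PMF.pure 2) P N ζ) (n : ℕ) (x : G) :
    ∫⁻ ω, mass (fun i => ζ i ω) n x ∂P = convPow μ n x := by
  classical
  unfold mass
  have hm : ∀ v, Measurable fun ω => ((if pos (fun i => ζ i ω) v = x then 1 else 0 : ℝ≥0∞)) :=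
    fun v => Measurable.ite (h.measurable_pos v (MeasurableSet.singleton x)) measurable_const
      measurable_const
  rw [lintegral_finsetSum]
  · have h1 : ∀ v ∈ bin n, ∫⁻ ω, (if pos (fun i => ζ i ω) v = x then 1 else 0) / 2 ^ n ∂P =
        convPow μ n x / 2 ^ n := by
      intro v hv
      simp only [div_eq_mul_inv]
      rw [lintegral_mul_const _ (hm v)]
      congr 1
      have h2 : (fun ω => (if pos (fun i => ζ i ω) v = x then 1 else 0 : ℝ≥0∞)) =
          Set.indicator {ω | pos (fun i => ζ i ω) v = x} (fun _ => 1) := by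
        funext ω
        rw [Set.indicator_apply]
        rfl
      have h3 : MeasurableSet {ω | pos (fun i => ζ i ω) v = x} :=
        h.measurable_pos v (MeasurableSet.singleton x)
      have h4 := lintegral_indicator_const (μ := P) h3 (1 : ℝ≥0∞)
      rw [one_mul, h.law_pos, bin_length n v hv] at h4
      rw [h2]
      exact h4
    rw [Finset.sum_congr rfl h1, Finset.sum_const, bin_card, nsmul_eq_mul]
    push_cast
    rw [ENNReal.mul_div_cancel (by positivity) (by finiteness)]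
  · intro v _
    exact (hm v).div measurable_const

theorem lintegral_rpow_le {Ω : Type*} [MeasurableSpace Ω] (P : Measure Ω) [IsProbabilityMeasure P]
    (f : Ω → ℝ≥0∞) (hf : Measurable f) {β : ℝ} (hβ0 : 0 ≤ β) (hβ1 : β ≤ 1) :
    ∫⁻ ω, f ω ^ β ∂P ≤ (∫⁻ ω, f ω ∂P) ^ β := by
  have h := ENNReal.lintegral_mul_norm_pow_le (μ := P) (f := f) (g := fun _ => 1)
    hf.aemeasurable aemeasurable_const hβ0 (sub_nonneg.2 hβ1) (by ring)
  simpa using h

theorem powSum_le {ν : G → ℝ≥0∞} {c : ℝ≥0∞} (hc0 : c ≠ 0) (hc : c ≠ ∞) {α β : ℝ}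
    (hαβ : α < β) (hν : ∀ x, ν x ≠ ∞) (h : ∀ x, ν x ≠ 0 → c⁻¹ ≤ ν x) :
    powSum α ν ≤ c ^ (β - α) * ∑' x, ν x ^ β := by
  unfold powSum
  rw [← ENNReal.tsum_mul_left]
  refine ENNReal.tsum_le_tsum fun x => ?_
  by_cases hx : ν x = 0
  · rw [if_pos hx]
    exact zero_le
  · rw [if_neg hx]
    have h1 : c⁻¹ ≤ ν x := h x hx
    have h2 : 1 ≤ c * ν x := by
      calc (1 : ℝ≥0∞) = c * c⁻¹ := (ENNReal.mul_inv_cancel hc0 hc).symm
        _ ≤ c * ν x := by gcongr
    have h3 : 1 ≤ (c * ν x) ^ (β - α) := ENNReal.one_le_rpow h2 (sub_pos.2 hαβ)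
    rw [ENNReal.mul_rpow_of_ne_top hc (hν x)] at h3
    have h4 : ν x ^ β = ν x ^ (β - α) * ν x ^ α := by
      rw [← ENNReal.rpow_add _ _ hx (hν x)]
      congr 1
      ring
    rw [h4, ← mul_assoc]
    calc ν x ^ α = 1 * ν x ^ α := (one_mul _).symm
      _ ≤ _ := by gcongr

theorem powSum_eq_tsum {ν : G → ℝ≥0∞} {β : ℝ} (hβ : 0 < β) :
    powSum β ν = ∑' x, ν x ^ β := by
  unfold powSum
  refine tsum_congr fun x => ?_
  by_cases hx : ν x = 0
  · rw [if_pos hx, hx, ENNReal.zero_rpow_of_pos hβ]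
  · rw [if_neg hx]

theorem mass_ne_top (z : List ℕ → G) (n : ℕ) (x : G) : mass z n x ≠ ∞ := by
  classical
  unfold mass
  refine (ENNReal.sum_lt_top.2 fun v _ => ?_).ne
  split_ifs
  · exact ENNReal.div_lt_top (by simp) (by positivity)
  · simp

theorem le_mass (z : List ℕ → G) (n : ℕ) (x : G) (h : mass z n x ≠ 0) :
    ((2 : ℝ≥0∞) ^ n)⁻¹ ≤ mass z n x := by
  classical
  unfold mass at h ⊢
  obtain ⟨v, hv, hv2⟩ := Finset.exists_ne_zero_of_sum_ne_zero h
  refine le_trans ?_ (Finset.single_le_sum (fun _ _ => zero_le) hv)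
  have h3 : pos z v = x := by
    by_contra h4
    apply hv2
    rw [if_neg h4]
    simp
  rw [if_pos h3]
  simp

theorem IsBRW.lintegral_powSum_le (h : IsBRW μ (PMF.pure 2) P N ζ) {α β : ℝ} (hβ : 0 < β)
    (hβ1 : β ≤ 1) (hαβ : α < β) (n : ℕ) :
    ∫⁻ ω, powSum α (mass (fun i => ζ i ω) n) ∂P ≤
      ((2 : ℝ≥0∞) ^ n) ^ (β - α) * powSum β (convPow μ n) := by
  have hp := h.prob
  calc ∫⁻ ω, powSum α (mass (fun i => ζ i ω) n) ∂P
      ≤ ∫⁻ ω, ((2 : ℝ≥0∞) ^ n) ^ (β - α) * ∑' x, mass (fun i => ζ i ω) n x ^ β ∂P := by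
        refine lintegral_mono fun ω => ?_
        exact powSum_le (by positivity) (by finiteness) hαβ (mass_ne_top _ n)
          (le_mass _ n)
    _ = ((2 : ℝ≥0∞) ^ n) ^ (β - α) * ∑' x, ∫⁻ ω, mass (fun i => ζ i ω) n x ^ β ∂P := by
        rw [lintegral_const_mul, lintegral_tsum]
        · exact fun x => ((h.measurable_mass n x).pow_const _).aemeasurable
        · exact Measurable.tsum fun x => (h.measurable_mass n x).pow_const _
    _ ≤ ((2 : ℝ≥0∞) ^ n) ^ (β - α) * ∑' x, (∫⁻ ω, mass (fun i => ζ i ω) n x ∂P) ^ β := by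
        gcongr with x
        exact lintegral_rpow_le P _ (h.measurable_mass n x) hβ.le hβ1
    _ = _ := by
        simp_rw [h.lintegral_mass]
        rw [powSum_eq_tsum hβ]

theorem IsBRW.eventually_le (h : IsBRW μ (PMF.pure 2) P N ζ) {α β : ℝ} (hβ : 0 < β)
    (hβ1 : β ≤ 1) (hαβ : α < β) {s r : ℝ≥0∞} (hs : ∀ n, powSum β (convPow μ n) ≤ s ^ n)
    (hr : (2 : ℝ≥0∞) ^ (β - α) * s < r) (hrt : r ≠ ∞) :
    ∀ᵐ ω ∂P, ∀ᶠ n : ℕ in atTop, powSum α (emp (fun v => N v ω) (fun v => ζ v ω) n) ≤ r ^ n := by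
  have hp := h.prob
  have hr0 : r ≠ 0 := (lt_of_le_of_lt zero_le hr).ne'
  have hmeas : ∀ n, Measurable fun ω => powSum α (mass (fun i => ζ i ω) n) := by
    intro n
    unfold powSum
    refine Measurable.tsum fun x => ?_
    refine Measurable.ite ?_ measurable_const ((h.measurable_mass n x).pow_const _)
    exact h.measurable_mass n x (MeasurableSet.singleton 0)
  set q : ℝ≥0∞ := (2 : ℝ≥0∞) ^ (β - α) * s with hq
  have hE : ∀ n, ∫⁻ ω, powSum α (mass (fun i => ζ i ω) n) ∂P ≤ q ^ n := by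
    intro n
    refine (h.lintegral_powSum_le hβ hβ1 hαβ n).trans ?_
    rw [hq, mul_pow]
    refine mul_le_mul' (le_of_eq ?_) (hs n)
    rw [← ENNReal.rpow_natCast, ← ENNReal.rpow_natCast, ← ENNReal.rpow_mul, ← ENNReal.rpow_mul,
      mul_comm]
  have h1 : ∫⁻ ω, ∑' n : ℕ, powSum α (mass (fun i => ζ i ω) n) / r ^ n ∂P ≠ ∞ := by
    rw [lintegral_tsum fun n => ((hmeas n).div_const _).aemeasurable]
    have h2 : ∀ n : ℕ, ∫⁻ ω, powSum α (mass (fun i => ζ i ω) n) / r ^ n ∂P ≤ (q / r) ^ n := by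
      intro n
      simp only [div_eq_mul_inv]
      rw [lintegral_mul_const _ (hmeas n), mul_pow, ← ENNReal.inv_pow]
      exact mul_le_mul' (hE n) le_rfl
    refine ne_top_of_le_ne_top ?_ (ENNReal.tsum_le_tsum h2)
    rw [ENNReal.tsum_geometric]
    have h3 : q / r < 1 := by
      rw [ENNReal.div_lt_iff (Or.inl hr0) (Or.inl hrt), one_mul]
      exact hr
    exact ENNReal.inv_ne_top.2 (tsub_pos_of_lt h3).ne'
  have h4 := ae_lt_top' (AEMeasurable.ennreal_tsum fun n => ((hmeas n).div_const _).aemeasurable) h1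
  filter_upwards [h4, h.ae_two] with ω hω hN
  have h5 := ENNReal.tendsto_atTop_zero_of_tsum_ne_top hω.ne
  have h6 := h5.eventually (gt_mem_nhds zero_lt_one)
  filter_upwards [h6] with n hn
  have h7 : emp (fun v => N v ω) (fun v => ζ v ω) n = mass (fun v => ζ v ω) n := by
    funext x
    exact emp_eq_mass hN _ n x
  rw [h7]
  rw [ENNReal.div_lt_iff (Or.inl (pow_ne_zero _ hr0)) (Or.inl (ENNReal.pow_ne_top hrt)),
    one_mul] at hn
  exact hn.le

end

end Pool.Agent.Q211.BR
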