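import Pool.Agent.Q211.BR.Word

/-!
# Branching random walks on groups
-/

set_option autoImplicit false

open MeasureTheory ProbabilityTheory Filter Topology
open scoped ENNReal

namespace Pool.Agent.Q211.BR

/-- Generation `n` of the tree in which the vertex `v` has the `N v` children
`0 :: v, ..., (N v - 1) :: v`; the root is `[]`. -/
def gen (N : List ℕ → ℕ) : ℕ → Finset (List ℕ)
  | 0 => {[]}
  | n + 1 => (gen N n).biUnion fun v => (Finset.range (N v)).image fun i => i :: v

/-- The position of a vertex: the product of the increments along the path from the root. -/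
def pos {G : Type*} [Group G] (ζ : List ℕ → G) : List ℕ → G
  | [] => 1
  | i :: v => pos ζ v * ζ (i :: v)

open Classical in
/-- The empirical distribution of generation `n`. -/
noncomputable def emp {G : Type*} [Group G] (N : List ℕ → ℕ) (ζ : List ℕ → G) (n : ℕ) (x : G) :
    ℝ≥0∞ :=
  (((gen N n).filter fun v => pos ζ v = x).card : ℝ≥0∞) / ((gen N n).card : ℝ≥0∞)

/-- The offspring numbers `N v` and the increments `ζ v` (over all labels `v`) drive a branching
random walk with offspring law `π` and step law `μ`: all of them are independent, the `N v` have law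
`π` and the `ζ v` have law `μ`. -/
structure IsBRW {G : Type*} [Group G] [MeasurableSpace G] (μ : PMF G) (π : PMF ℕ)
    {Ω : Type*} [MeasurableSpace Ω] (P : Measure Ω) (N : List ℕ → Ω → ℕ) (ζ : List ℕ → Ω → G) :
    Prop where
  prob : IsProbabilityMeasure P
  measN : ∀ v, Measurable (N v)
  measζ : ∀ v, Measurable (ζ v)
  law : ∀ v, P.map (fun ω => (N v ω, ζ v ω)) = π.toMeasure.prod μ.toMeasure
  indep : iIndepFun (fun v ω => (N v ω, ζ v ω)) P

section

variable {G : Type*} [Group G] [mG : MeasurableSpace G] [DiscreteMeasurableSpace G] [Countable G]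
  {μ : PMF G} {π : PMF ℕ} {Ω : Type*} [mΩ : MeasurableSpace Ω] {P : Measure Ω}
  {N : List ℕ → Ω → ℕ} {ζ : List ℕ → Ω → G}

theorem IsBRW.lawζ (h : IsBRW μ π P N ζ) (v : List ℕ) : P.map (ζ v) = μ.toMeasure := by
  have h1 : P.map (ζ v) = (P.map (fun ω => (N v ω, ζ v ω))).map Prod.snd := by
    rw [Measure.map_map measurable_snd ((h.measN v).prodMk (h.measζ v))]
    rfl
  rw [h1, h.law, Measure.map_snd_prod]
  simp

theorem IsBRW.lawN (h : IsBRW μ π P N ζ) (v : List ℕ) : P.map (N v) = π.toMeasure := by
  have h1 : P.map (N v) = (P.map (fun ω => (N v ω, ζ v ω))).map Prod.fst := by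
    rw [Measure.map_map measurable_fst ((h.measN v).prodMk (h.measζ v))]
    rfl
  rw [h1, h.law, Measure.map_fst_prod]
  simp

theorem IsBRW.indepζ (h : IsBRW μ π P N ζ) : iIndepFun ζ P :=
  h.indep.comp (fun _ => Prod.snd) (fun _ => measurable_snd)

theorem measurable_pos_past (ζ : List ℕ → Ω → G) (v : List ℕ) :
    Measurable[⨆ i ∈ {i : List ℕ | i.length ≤ v.length}, MeasurableSpace.comap (ζ i) mG]
      (fun ω => pos (fun i => ζ i ω) v) := by
  induction v with
  | nil => exact measurable_const
  | cons a v ih =>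
    have h1 : (⨆ i ∈ {i : List ℕ | i.length ≤ v.length}, MeasurableSpace.comap (ζ i) mG) ≤
        ⨆ i ∈ {i : List ℕ | i.length ≤ (a :: v).length}, MeasurableSpace.comap (ζ i) mG :=
      biSup_mono fun i hi => le_trans hi (Nat.le_succ _)
    have h2 : MeasurableSpace.comap (ζ (a :: v)) mG ≤
        ⨆ i ∈ {i : List ℕ | i.length ≤ (a :: v).length}, MeasurableSpace.comap (ζ i) mG :=
      le_biSup (fun i => MeasurableSpace.comap (ζ i) mG)
        (show (a :: v).length ≤ (a :: v).length from le_rfl)
    have h3 : Measurable[MeasurableSpace.comap (ζ (a :: v)) mG] (ζ (a :: v)) :=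
      comap_measurable (ζ (a :: v))
    have hmul : Measurable fun q : G × G => q.1 * q.2 := measurable_from_prod_countable_right
      (fun _ => Measurable.of_discrete)
    exact hmul.comp ((ih.mono h1 le_rfl).prodMk (h3.mono h2 le_rfl))

theorem IsBRW.measurable_pos (h : IsBRW μ π P N ζ) (v : List ℕ) :
    Measurable (fun ω => pos (fun i => ζ i ω) v) :=
  (measurable_pos_past ζ v).mono (iSup₂_le fun i _ => (h.measζ i).comap_le) le_rfl

theorem IsBRW.indep_pos (h : IsBRW μ π P N ζ) (a : ℕ) (v : List ℕ) :
    IndepFun (fun ω => pos (fun i => ζ i ω) v) (ζ (a :: v)) P := by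
  have hp := h.prob
  have h1 := indep_iSup_of_disjoint (fun i => (h.measζ i).comap_le) h.indepζ
    (S := {i : List ℕ | i.length ≤ v.length}) (T := {a :: v}) (by
      rw [Set.disjoint_singleton_right]
      simp)
  rw [IndepFun_iff_Indep]
  refine indep_of_indep_of_le_left (indep_of_indep_of_le_right h1 ?_) ?_
  · simp
  · exact (measurable_pos_past ζ v).comap_le

theorem IsBRW.law_pos (h : IsBRW μ π P N ζ) (v : List ℕ) (g : G) :
    P {ω | pos (fun i => ζ i ω) v = g} = convPow μ v.length g := by
  classical
  have hp := h.prob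
  induction v generalizing g with
  | nil =>
    show P {ω | (1 : G) = g} = PMF.pure (1 : G) g
    rw [PMF.pure_apply]
    by_cases hg : g = 1
    · simp [hg]
    · have : ¬ (1 : G) = g := fun h => hg h.symm
      simp [hg, this]
  | cons a v ih =>
    have h1 : {ω | pos (fun i => ζ i ω) (a :: v) = g} =
        ⋃ x : G, {ω | pos (fun i => ζ i ω) v = x} ∩ {ω | ζ (a :: v) ω = x⁻¹ * g} := by
      ext ω
      simp only [pos, Set.mem_iUnion, Set.mem_inter_iff, Set.mem_ofPred_eq]
      constructor
      · intro hω
        exact ⟨_, rfl, by rw [← hω]; group⟩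
      · rintro ⟨x, rfl, h2⟩
        rw [h2]
        group
    have hm : ∀ x : G, MeasurableSet {ω | pos (fun i => ζ i ω) v = x} := fun x =>
      h.measurable_pos v (MeasurableSet.singleton x)
    have hm' : ∀ x : G, MeasurableSet {ω | ζ (a :: v) ω = x} := fun x =>
      h.measζ _ (MeasurableSet.singleton x)
    rw [h1, measure_iUnion]
    · show _ = ((convPow μ v.length).bind fun x => μ.map fun y => x * y) g
      rw [PMF.bind_apply]
      refine tsum_congr fun x => ?_
      have h2 := (h.indep_pos a v).measure_inter_preimage_eq_mul {x} {x⁻¹ * g}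
        (MeasurableSet.singleton x) (MeasurableSet.singleton _)
      have h3 : P ({ω | pos (fun i => ζ i ω) v = x} ∩ {ω | ζ (a :: v) ω = x⁻¹ * g}) =
          P {ω | pos (fun i => ζ i ω) v = x} * P {ω | ζ (a :: v) ω = x⁻¹ * g} := h2
      rw [h3, ih]
      congr 1
      have h4 : P {ω | ζ (a :: v) ω = x⁻¹ * g} = (P.map (ζ (a :: v))) {x⁻¹ * g} := by
        rw [Measure.map_apply (h.measζ _) (MeasurableSet.singleton _)]
        rfl
      rw [h4, h.lawζ, PMF.toMeasure_apply_singleton _ _ (MeasurableSet.singleton _)]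
      have h5 := map_apply_inj μ (fun y => x * y) (mul_right_injective x) (x⁻¹ * g)
      simp only [mul_inv_cancel_left] at h5
      exact h5.symm
    · intro x y hxy
      refine Set.disjoint_left.2 ?_
      rintro ω ⟨h2, _⟩ ⟨h3, _⟩
      exact hxy (h2.symm.trans h3)
    · intro x
      exact (hm x).inter (hm' _)

end

end Pool.Agent.Q211.BR
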