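import Mathlib

/-!
# Rényi entropies of convolution powers on a free group
-/

set_option autoImplicit false

open Filter Topology
open scoped ENNReal

namespace Pool.Agent.Q211.BR

/-- The `n`-fold convolution power of a probability measure on a group. -/
noncomputable def convPow {G : Type*} [Group G] (μ : PMF G) : ℕ → PMF G
  | 0 => PMF.pure 1
  | n + 1 => (convPow μ n).bind fun x => μ.map fun y => x * y

/-- `∑_{g : ν(g) > 0} ν(g)^α`. -/
noncomputable def powSum {G : Type*} (α : ℝ) (ν : G → ℝ≥0∞) : ℝ≥0∞ :=
  ∑' g, if ν g = 0 then 0 else ν g ^ α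

/-- The Rényi entropy of order `α ≠ 1` of a finitely supported measure. -/
noncomputable def renyi {G : Type*} (α : ℝ) (ν : G → ℝ≥0∞) : ℝ :=
  (1 / (1 - α)) * Real.log (powSum α ν).toReal

theorem map_apply_inj {A B : Type*} (ν : PMF A) (f : A → B) (hf : Function.Injective f) (a : A) :
    (ν.map f) (f a) = ν a := by
  classical
  rw [PMF.map_apply, tsum_eq_single a]
  · simp
  · intro b hb
    rw [if_neg]
    intro h
    exact hb (hf h).symm

theorem map_apply_notin {A B : Type*} (ν : PMF A) (f : A → B) (b : B) (hb : b ∉ Set.range f) :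
    (ν.map f) b = 0 := by
  classical
  rw [PMF.map_apply, ENNReal.tsum_eq_zero]
  intro a
  rw [if_neg]
  rintro rfl
  exact hb ⟨a, rfl⟩

theorem powSum_map {A B : Type*} (α : ℝ) (ν : PMF A) (f : A → B) (hf : Function.Injective f) :
    powSum α (ν.map f) = powSum α ν := by
  unfold powSum
  rw [← hf.tsum_eq]
  · refine tsum_congr fun a => ?_
    rw [map_apply_inj ν f hf]
  · intro b hb
    by_contra h
    apply hb
    simp only
    rw [if_pos (map_apply_notin ν f b h)]

/-- The product of two probability laws. -/
noncomputable def prodLaw {A B : Type*} (ν : PMF A) (p : PMF B) : PMF (A × B) :=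
  ν.bind fun a => p.map fun b => (a, b)

theorem prodLaw_apply {A B : Type*} (ν : PMF A) (p : PMF B) (a : A) (b : B) :
    prodLaw ν p (a, b) = ν a * p b := by
  classical
  unfold prodLaw
  rw [PMF.bind_apply, tsum_eq_single a]
  · rw [map_apply_inj p (fun b => (a, b)) (fun x y h => (Prod.mk.inj h).2)]
  · intro a' ha'
    rw [map_apply_notin, mul_zero]
    rintro ⟨b', hb'⟩
    exact ha' (Prod.mk.inj hb').1

theorem powSum_prodLaw {A B : Type*} (α : ℝ) (ν : PMF A) (p : PMF B) :
    powSum α (prodLaw ν p) = powSum α ν * powSum α p := by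
  unfold powSum
  rw [ENNReal.tsum_prod', ← ENNReal.tsum_mul_right]
  refine tsum_congr fun a => ?_
  rw [← ENNReal.tsum_mul_left]
  refine tsum_congr fun b => ?_
  rw [prodLaw_apply]
  by_cases h1 : ν a = 0
  · simp [h1]
  by_cases h2 : p b = 0
  · simp [h2]
  rw [if_neg h1, if_neg h2, if_neg (mul_ne_zero h1 h2),
    ENNReal.mul_rpow_of_ne_top (PMF.apply_ne_top _ _) (PMF.apply_ne_top _ _)]

/-- The law of a word of `n` independent letters. -/
noncomputable def wordLaw {A : Type*} (p : PMF A) : ℕ → PMF (List A)
  | 0 => PMF.pure []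
  | n + 1 => (wordLaw p n).bind fun w => p.map fun i => w ++ [i]

theorem wordLaw_succ {A : Type*} (p : PMF A) (n : ℕ) :
    wordLaw p (n + 1) = (prodLaw (wordLaw p n) p).map fun q => q.1 ++ [q.2] := by
  unfold prodLaw
  rw [PMF.map_bind]
  simp only [PMF.map_comp]
  rfl

theorem powSum_pure {A : Type*} (α : ℝ) (a : A) : powSum α (PMF.pure a) = 1 := by
  classical
  unfold powSum
  rw [tsum_eq_single a]
  · simp
  · intro b hb
    simp [PMF.pure_apply, hb]

theorem powSum_wordLaw {A : Type*} (α : ℝ) (p : PMF A) (n : ℕ) :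
    powSum α (wordLaw p n) = powSum α p ^ n := by
  induction n with
  | zero => rw [pow_zero]; exact powSum_pure α []
  | succ n ih =>
    rw [wordLaw_succ, powSum_map, powSum_prodLaw, ih, pow_succ]
    rintro ⟨w, i⟩ ⟨w', i'⟩ h
    simp only at h
    have := List.append_inj' h rfl
    simp only [List.cons.injEq, and_true] at this
    rw [this.1, this.2]

/-- The positive word as an element of the free group. -/
def emb {A : Type*} (w : List A) : FreeGroup A := (w.map FreeGroup.of).prod

theorem emb_eq_mk {A : Type*} (w : List A) :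
    emb w = FreeGroup.mk (w.map fun i => (i, true)) := by
  induction w with
  | nil => rfl
  | cons i w ih =>
    unfold emb at ih ⊢
    rw [List.map_cons, List.prod_cons, ih]
    rfl

theorem emb_inj {A : Type*} [DecidableEq A] : Function.Injective (emb : List A → FreeGroup A) := by
  intro w w' h
  rw [emb_eq_mk, emb_eq_mk] at h
  have hr : ∀ w : List A, FreeGroup.IsReduced (w.map fun i => (i, true)) := by
    intro w
    induction w with
    | nil => exact FreeGroup.IsReduced.nil
    | cons a w ih =>
      cases w with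
      | nil => exact FreeGroup.IsReduced.singleton
      | cons b w =>
        rw [List.map_cons, List.map_cons, FreeGroup.isReduced_cons_cons]
        exact ⟨fun _ => rfl, by simpa using ih⟩
  have h1 := congrArg FreeGroup.toWord h
  rw [FreeGroup.toWord_mk, FreeGroup.toWord_mk, (hr w).reduce_eq, (hr w').reduce_eq] at h1
  exact (List.map_injective_iff.2 fun x y h => (Prod.mk.inj h).1) h1

theorem convPow_eq {A : Type*} (p : PMF A) (n : ℕ) :
    convPow (p.map FreeGroup.of) n = (wordLaw p n).map emb := by
  induction n with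
  | zero =>
    show PMF.pure 1 = (PMF.pure []).map emb
    rw [PMF.pure_map]
    rfl
  | succ n ih =>
    show (convPow (p.map FreeGroup.of) n).bind (fun x => (p.map FreeGroup.of).map fun y => x * y) =
      ((wordLaw p n).bind fun w => p.map fun i => w ++ [i]).map emb
    rw [ih, PMF.map_bind, PMF.bind_map]
    congr 1
    funext w
    rw [PMF.map_comp]
    simp only [Function.comp_apply]
    rw [PMF.map_comp]
    congr 1
    funext i
    simp [emb]

theorem powSum_convPow {A : Type*} (α : ℝ) (p : PMF A) (n : ℕ) :
    powSum α (convPow (p.map FreeGroup.of) n) = powSum α p ^ n := by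
  classical
  rw [convPow_eq, powSum_map _ _ _ emb_inj, powSum_wordLaw]

theorem renyi_lim {A : Type*} (α : ℝ) (p : PMF A) :
    Tendsto (fun n : ℕ => renyi α (convPow (p.map FreeGroup.of) n) / n) atTop
      (𝓝 ((1 / (1 - α)) * Real.log (powSum α p).toReal)) := by
  refine Tendsto.congr' ?_ tendsto_const_nhds
  filter_upwards [eventually_gt_atTop 0] with n hn
  unfold renyi
  rw [powSum_convPow, ENNReal.toReal_pow, Real.log_pow]
  have : (n : ℝ) ≠ 0 := by exact_mod_cast hn.ne'
  field_simp

end Pool.Agent.Q211.BR
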